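import Mathlib

set_option autoImplicit false

namespace Pool.Agent.H.MP_6087e2_al

open Quaternion Matrix

abbrev F := FreeGroup (Fin 2)

def gen (R : Type) [CommRing R] (l : Fin 2 × Bool) : ℍ[R] :=
  ⟨3, if l.1 = 0 then cond l.2 4 (-4) else 0, if l.1 = 0 then 0 else cond l.2 4 (-4), 0⟩

def qm (R : Type) [CommRing R] (z : ℍ[ℤ]) : ℍ[R] := ⟨z.re, z.imI, z.imJ, z.imK⟩

theorem qm_mul (R : Type) [CommRing R] (l : Fin 2 × Bool) (z : ℍ[ℤ]) :
    qm R (gen ℤ l * z) = gen R l * qm R z := by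
  obtain ⟨i, b⟩ := l
  fin_cases i <;> cases b <;> ext <;> simp [qm, gen]

theorem gen_mul (i : Fin 2) (b : Bool) :
    ((1 / 5 : ℝ) • gen ℝ (i, b)) * ((1 / 5 : ℝ) • gen ℝ (i, !b)) = 1 := by
  fin_cases i <;> cases b <;> ext <;> simp [gen] <;> norm_num

noncomputable def u (i : Fin 2) : ℍ[ℝ]ˣ := ⟨_, _, gen_mul i true, gen_mul i false⟩

noncomputable def q : F →* ℍ[ℝ]ˣ := FreeGroup.lift u

theorem fin5 (l l' : Fin 2 × Bool) (y : ℍ[ZMod 5]) : (l.1 = l'.1 → l.2 = l'.2) →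
    gen _ l * (gen _ l' * y) = 0 → gen _ l' * y = 0 := by
  simp only [gen, Quaternion.ext_iff, re_mul, imI_mul, imJ_mul, imK_mul, re_zero, imI_zero, imJ_zero,
    imK_zero]
  generalize y.re = a, y.imI = b, y.imJ = c, y.imK = d
  revert l l' a b c d
  decide +kernel

theorem word (L : List (Fin 2 × Bool)) : ∀ l, FreeGroup.IsReduced (l :: L) → ∃ z : ℍ[ℤ],
    (5 : ℝ) ^ (L.length + 1) • (q (FreeGroup.mk (l :: L)) : ℍ[ℝ]) = qm ℝ z ∧
      qm (ZMod 5) z ≠ 0 ∧ ∃ y, qm (ZMod 5) z = gen _ l * y := by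
  have e : ∀ (l : Fin 2 × Bool) L, (q (FreeGroup.mk (l :: L)) : ℍ[ℝ]) =
      (1 / 5 : ℝ) • gen ℝ l * q (FreeGroup.mk L) := fun ⟨i, b⟩ L => by
    rw [q, FreeGroup.lift_mk, FreeGroup.lift_mk]; cases b <;> rfl
  induction L with
  | nil =>
    refine fun l _ => ⟨gen ℤ l * 1, ?_, ?_, _, qm_mul _ _ _⟩
    · rw [e, qm_mul, ← FreeGroup.one_eq_mk, map_one, show qm ℝ 1 = 1 by ext <;> simp [qm]]
      simp [smul_smul]
    · simp only [Ne, Quaternion.ext_iff, mul_one, qm, gen]; exact fun h => absurd h.1 (by decide)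
  | cons l' L ih =>
    intro l h
    rw [FreeGroup.isReduced_cons_cons] at h
    obtain ⟨z, h1, h2, y, h3⟩ := ih l' h.2
    refine ⟨gen ℤ l * z, ?_, fun h0 => h2 ?_, _, qm_mul _ _ _⟩
    · rw [e, qm_mul, ← h1, List.length_cons, pow_succ _ (_ + 1)]
      simp [smul_smul]
    · rw [qm_mul, h3] at h0
      exact h3 ▸ fin5 l l' _ h.1 h0

theorem nsq (w : F) : normSq (q w : ℍ[ℝ]) = 1 := by
  induction w using FreeGroup.induction_on with
  | C1 => simp
  | of i => fin_cases i <;> simp [q, u, gen, normSq_def'] <;> norm_num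
  | inv_of i h => simp [h]
  | mul a b ha hb => simp [ha, hb]

theorem free {w : F} (h : (q w : ℍ[ℝ]).im = 0) : w = 1 := by
  rcases e : w.toWord with _ | ⟨l, L⟩
  · exact FreeGroup.toWord_eq_nil_iff.1 e
  obtain ⟨z, h1, h2, -⟩ := word L l (e ▸ FreeGroup.isReduced_toWord)
  rw [← e, FreeGroup.mk_toWord] at h1
  have n := nsq w
  simp only [Quaternion.ext_iff, qm, normSq_def', re_smul, imI_smul, imJ_smul, imK_smul, imI_im, imJ_im,
    imK_im, imI_zero, imJ_zero, imK_zero, smul_eq_mul] at *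
  obtain ⟨-, a, b, c⟩ := h
  simp only [a, b, c, mul_zero] at n h1
  have : z.re = 5 ^ (L.length + 1) ∨ z.re = -5 ^ (L.length + 1) := by
    rcases sq_eq_one_iff.1 (by linarith : (q w : ℍ[ℝ]).re ^ 2 = 1) with e | e <;>
      [left; right] <;> refine Int.cast_injective (α := ℝ) ?_ <;> rw [← h1.1, e] <;> simp
  refine absurd ?_ h2
  have k : ∀ t : ℤ, 0 = (t : ℝ) → (t : ZMod 5) = 0 := fun t ht => by
    rw [show t = 0 by exact_mod_cast ht.symm]; simp
  refine Quaternion.ext _ _ ?_ (k _ h1.2.1) (k _ h1.2.2.1) (k _ h1.2.2.2)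
  rcases this with e | e <;> simp [e, pow_succ, show (5 : ZMod 5) = 0 from rfl]

theorem comm {g h : F} (e : (q g : ℍ[ℝ]) * q h = q h * q g) : Commute g h := by
  have : q (g * h * (h * g)⁻¹) = 1 := by
    rw [map_mul, map_inv, mul_inv_eq_one, map_mul, map_mul]; exact Units.ext e
  exact mul_inv_eq_one.1 (free (by rw [this]; rfl))

theorem blk {ι : Type} [Fintype ι] [DecidableEq ι] (φ : F →* Matrix ι ι ℝ) (T : (ι → ℝ) → ℍ[ℝ])
    (c : F →* ℍ[ℝ]ˣ) (h : ∀ i x, T (φ (.of i) *ᵥ x) * c (.of i) = u i * T x) (w : F) :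
    ∀ x, T (φ w *ᵥ x) * c w = q w * T x := by
  induction w using FreeGroup.induction_on with
  | C1 => simp
  | of i => simpa [q] using h i
  | inv_of i hi =>
    intro x
    have := hi (φ (.of i)⁻¹ *ᵥ x)
    rw [mulVec_mulVec, ← map_mul, mul_inv_cancel, map_one, one_mulVec] at this
    rw [map_inv c, map_inv q, Units.mul_inv_eq_iff_eq_mul, mul_assoc, this, Units.inv_mul_cancel_left]
  | mul a b ha hb =>
    intro x
    rw [map_mul, ← mulVec_mulVec, map_mul, Units.val_mul, ← mul_assoc, ha, mul_assoc, hb, map_mul,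
      Units.val_mul, mul_assoc]

def G {n : ℕ} (φ : F →* Matrix (Fin n) (Fin n) ℝ) : Prop :=
  (∀ w, φ w ∈ orthogonalGroup (Fin n) ℝ) ∧ (∀ w, φ w = 1 → w = 1) ∧
    ∀ g h x, x ≠ 0 → φ g *ᵥ x = x → φ h *ᵥ x = x → Commute g h

def Ng {n : ℕ} (φ : F →* Matrix (Fin n) (Fin n) ℝ) : Prop := ∃ w x, x ≠ 0 ∧ φ w *ᵥ x = -x

theorem sum {m n : ℕ} {φ : F →* Matrix (Fin m) (Fin m) ℝ} {ψ : F →* Matrix (Fin n) (Fin n) ℝ}
    (hφ : G φ) (hψ : G ψ) (N : Ng φ) : ∃ θ : F →* Matrix (Fin (m + n)) (Fin (m + n)) ℝ, G θ ∧ Ng θ ∧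
      ∀ w, (θ w).det = (φ w).det * (ψ w).det := by
  let e := (finSumFinEquiv (m := m) (n := n)).symm
  have k : ∀ w x, (fromBlocks (φ w) 0 0 (ψ w)).submatrix e e *ᵥ x =
      Sum.elim (φ w *ᵥ (x ∘ e.symm ∘ Sum.inl)) (ψ w *ᵥ (x ∘ e.symm ∘ Sum.inr)) ∘ e := fun w x => by
    simp [submatrix_mulVec_equiv, fromBlocks_mulVec, Function.comp_assoc]
  refine ⟨⟨⟨fun w => (fromBlocks (φ w) 0 0 (ψ w)).submatrix e e, by simp⟩, fun a b => by
    simp [submatrix_mul_equiv, fromBlocks_multiply]⟩, ⟨fun w => ?_, fun w h => hφ.2.1 w ?_,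
      fun g h x x0 hg hh => ?_⟩, ?_, fun w => by simp [det_fromBlocks_zero₂₁]⟩
  · have a := mem_orthogonalGroup_iff _ _ |>.1 (hφ.1 w)
    have b := mem_orthogonalGroup_iff _ _ |>.1 (hψ.1 w)
    simp [mem_orthogonalGroup_iff, submatrix_mul_equiv, fromBlocks_transpose, fromBlocks_multiply, a, b]
  · ext i j
    simpa [one_apply, e] using congrFun (congrFun h (e.symm (.inl i))) (e.symm (.inl j))
  · have s : ∀ {w}, (fromBlocks (φ w) 0 0 (ψ w)).submatrix e e *ᵥ x = x →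
        φ w *ᵥ (x ∘ e.symm ∘ Sum.inl) = x ∘ e.symm ∘ Sum.inl ∧
        ψ w *ᵥ (x ∘ e.symm ∘ Sum.inr) = x ∘ e.symm ∘ Sum.inr := fun {w} h => by
      rw [k] at h
      exact ⟨funext fun i => by simpa using congrFun h (e.symm (.inl i)),
        funext fun i => by simpa using congrFun h (e.symm (.inr i))⟩
    by_cases h1 : x ∘ e.symm ∘ Sum.inl = 0
    · refine hψ.2.2 g h _ (fun h2 => x0 (funext fun i => ?_)) (s hg).2 (s hh).2
      obtain ⟨j | j, rfl⟩ := e.symm.surjective i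
      exacts [congrFun h1 j, congrFun h2 j]
    · exact hφ.2.2 g h _ h1 (s hg).1 (s hh).1
  · obtain ⟨w, x, x0, h⟩ := N
    refine ⟨w, Sum.elim x 0 ∘ e, fun h => x0 (funext fun i => ?_), (k w _).trans (funext fun i => ?_)⟩
    · simpa using congrFun h (e.symm (.inl i))
    · obtain ⟨j | j, rfl⟩ := e.symm.surjective i <;> simp [Function.comp_def, h, mulVec]

theorem lft {n : ℕ} (m : Fin 2 → Matrix (Fin n) (Fin n) ℝ) (h : ∀ i, m i * (m i)ᵀ = 1) :
    ∃ φ : F →* Matrix (Fin n) (Fin n) ℝ, (∀ i, φ (.of i) = m i) ∧ (∀ w, φ w ∈ orthogonalGroup (Fin n) ℝ) ∧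
      ((∀ i, (m i).det = 1) → ∀ w, (φ w).det = 1) := by
  refine ⟨(orthogonalGroup (Fin n) ℝ).subtype.comp (FreeGroup.lift fun i =>
    ⟨m i, (mem_orthogonalGroup_iff _ _).2 (h i)⟩), by simp, fun w => Subtype.prop _, fun d w => ?_⟩
  induction w using FreeGroup.induction_on with
  | C1 => simp
  | of i => simp [d]
  | inv_of i hi => simpa [star_eq_conjTranspose] using d i
  | mul a b ha hb => rw [map_mul, det_mul, ha, hb, one_mul]

theorem four : ∃ φ : F →* Matrix (Fin 4) (Fin 4) ℝ, G φ ∧ Ng φ ∧ ∀ w, (φ w).det = 1 := by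
  obtain ⟨φ, h1, h2, h3⟩ := lft ![!![-1, 0, 0, 0; 0, -1, 0, 0; 0, 0, 7 / 25, 24 / 25; 0, 0, -24 / 25, 7 / 25],
    !![3 / 5, 0, -4 / 5, 0; 0, 3 / 5, 0, 4 / 5; 4 / 5, 0, 3 / 5, 0; 0, -4 / 5, 0, 3 / 5]] fun i => by
    fin_cases i <;> ext a b <;> fin_cases a <;> fin_cases b <;> simp [mul_apply, Fin.sum_univ_four] <;>
      norm_num
  obtain ⟨c, hc, cc⟩ : ∃ c : F →* ℍ[ℝ]ˣ, (∀ i, c (.of i) = ![-u 0, 1] i) ∧
      ∀ g h, c g * c h = c h * c g :=
    ⟨(zpowersHom _ (-u 0)).comp (FreeGroup.lift ![Multiplicative.ofAdd 1, 1]),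
      fun i => by fin_cases i <;> simp, fun g h => by
        simp only [MonoidHom.comp_apply, ← map_mul (zpowersHom _ _), mul_comm]⟩
  have b := blk φ (fun x => ⟨x 0, x 1, x 2, x 3⟩) c fun i x => by
    rw [h1, hc]
    fin_cases i <;> ext <;> simp [u, gen, mulVec, dotProduct, Fin.sum_univ_four] <;> ring
  refine ⟨φ, ⟨h2, fun w h => free ?_, fun g h x x0 hg hh => comm ?_⟩, ⟨.of 0, ![1, 0, 0, 0], by simp, ?_⟩,
    h3 fun i => by fin_cases i <;> simp [det_succ_row_zero, Fin.sum_univ_succ, Fin.succAbove] <;> norm_num⟩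
  · have a0 := b w ![1, 0, 0, 0]
    have a1 := b w ![0, 1, 0, 0]
    have a2 := b w ![0, 0, 1, 0]
    simp [h, Quaternion.ext_iff] at a0 a1 a2 ⊢
    refine ⟨?_, ?_, ?_⟩ <;> linarith [a0.2.1, a0.2.2.1, a0.2.2.2, a1.2.2.1, a1.2.2.2, a2.2.2.2]
  · have a := b g x
    have a' := b h x
    rw [hg] at a; rw [hh] at a'
    refine mul_right_cancel₀ (b := ⟨x 0, x 1, x 2, x 3⟩) (fun e => x0 ?_) ?_
    · simp only [Quaternion.ext_iff] at e
      ext i; fin_cases i; exacts [e.1, e.2.1, e.2.2.1, e.2.2.2]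
    · rw [mul_assoc, mul_assoc, ← a, ← a', ← mul_assoc, ← mul_assoc, ← a, ← a', mul_assoc, mul_assoc,
        ← Units.val_mul, cc, Units.val_mul]
  · rw [h1]; ext i; fin_cases i <;> simp [mulVec, dotProduct, Fin.sum_univ_four]

theorem three (s : ℝˣ) (hs : s = 1 ∨ s = -1) : ∃ φ : F →* Matrix (Fin 3) (Fin 3) ℝ, G φ ∧
    (s = -1 → Ng φ) ∧ (s = 1 → ∀ w, (φ w).det = 1) := by
  obtain ⟨φ, h1, h2, h3⟩ := lft ![(s : ℝ) • !![1, 0, 0; 0, -7 / 25, -24 / 25; 0, 24 / 25, -7 / 25],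
    !![-7 / 25, 0, 24 / 25; 0, 1, 0; -24 / 25, 0, -7 / 25]] fun i => by
    rcases hs with rfl | rfl <;> fin_cases i <;> ext a b <;> fin_cases a <;> fin_cases b <;>
      simp [mul_apply, Fin.sum_univ_three] <;> norm_num
  obtain ⟨c, hc⟩ : ∃ c : F →* ℍ[ℝ]ˣ, ∀ i, c (.of i) = ![s • u 0, u 1] i :=
    ⟨FreeGroup.lift _, fun i => FreeGroup.lift_apply_of⟩
  have cq : ∀ w, c w = q w ∨ c w = -q w := fun w => by
    induction w using FreeGroup.induction_on with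
    | C1 => simp
    | of i => rcases hs with rfl | rfl <;> fin_cases i <;> simp [hc, q, Units.ext_iff, Units.smul_def]
    | inv_of i hi => rcases hi with e | e <;> simp [e]
    | mul a b ha hb => rcases ha with e | e <;> rcases hb with e' | e' <;> simp [e, e']
  have b := blk φ (fun x => ⟨0, x 0, x 1, x 2⟩) c fun i x => by
    rw [h1, hc]
    rcases hs with rfl | rfl <;> fin_cases i <;> ext <;>
      simp [u, gen, mulVec, dotProduct, Fin.sum_univ_three] <;> ring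
  have sp : ∀ g x, x ≠ 0 → φ g *ᵥ x = x → g = 1 ∨ ∃ β : ℝ, (q g : ℍ[ℝ]).imI = β * x 0 ∧
      (q g : ℍ[ℝ]).imJ = β * x 1 ∧ (q g : ℍ[ℝ]).imK = β * x 2 := fun g x x0 hg => by
    have a := b g x
    have n : x 0 ^ 2 + x 1 ^ 2 + x 2 ^ 2 ≠ 0 := fun e => x0 (by
      ext i; fin_cases i <;> simp <;> nlinarith)
    rw [hg] at a
    rcases cq g with e | e <;> simp [e, Quaternion.ext_iff] at a <;> obtain ⟨a0, a1, a2, a3⟩ := a
    · refine .inr ⟨((q g : ℍ[ℝ]).imI * x 0 + (q g : ℍ[ℝ]).imJ * x 1 + (q g : ℍ[ℝ]).imK * x 2) /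
        (x 0 ^ 2 + x 1 ^ 2 + x 2 ^ 2), ?_, ?_, ?_⟩ <;> field_simp
      · linear_combination (x 2 / 2) * a2 - (x 1 / 2) * a3
      · linear_combination (x 0 / 2) * a3 - (x 2 / 2) * a1
      · linear_combination (x 1 / 2) * a1 - (x 0 / 2) * a2
    · have r : (q g : ℍ[ℝ]).re = 0 := mul_left_cancel₀ n (by
        linear_combination -(x 0 / 2) * a1 - (x 1 / 2) * a2 - (x 2 / 2) * a3)
      exact .inl ((pow_eq_one_iff_left two_ne_zero).1 (free (w := g ^ 2) (by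
        ext <;> simp [sq, r, mul_comm])))
  refine ⟨φ, ⟨h2, fun w h => ?_, fun g h x x0 hg hh => ?_⟩, fun e => ⟨.of 0, ![1, 0, 0], by simp, ?_⟩,
    fun e => h3 fun i => by
      fin_cases i <;> simp [e, det_succ_row_zero, Fin.sum_univ_succ, Fin.succAbove] <;> norm_num⟩
  · obtain e | ⟨β, a⟩ := sp w ![1, 0, 0] (by simp) (by simp [h])
    · exact e
    obtain e | ⟨β, a'⟩ := sp w ![0, 1, 0] (by simp) (by simp [h])
    · exact e
    exact free (by ext <;> simp [a.2, a'.1])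
  · obtain rfl | ⟨β, a⟩ := sp g x x0 hg
    · exact .one_left _
    obtain rfl | ⟨β', a'⟩ := sp h x x0 hh
    · exact .one_right _
    exact comm (by ext <;> simp [a, a'] <;> ring)
  · rw [h1, e]; ext i; fin_cases i <;> simp [mulVec, dotProduct, Fin.sum_univ_three]

end Pool.Agent.H.MP_6087e2_al
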